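import Mathlib

namespace Pool.Agent.Results.MP_19f4d1_co.CyclicOrderFour

open Complex

/-! ### Finite simplicial complexes with a group action, realization, index -/

/-- A finite abstract simplicial complex (Mathlib's `AbstractSimplicialComplex` on a finite vertex
type) together with a simplicial action of `G`. -/
structure GComplex (G : Type) [Group G] where
  /-- the vertices -/
  V : Type
  [fin : Fintype V]
  [act : MulAction G V]
  /-- the complex -/
  K : AbstractSimplicialComplex V
  smul_mem : ∀ (g : G) (s : Finset V), s ∈ K.faces →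
    s.map (MulAction.toPerm g).toEmbedding ∈ K.faces

attribute [instance] GComplex.fin GComplex.act

variable {G : Type} [Group G]

/-- The geometric realization of a finite complex: barycentric coordinate vectors whose support
lies in a face. -/
@[ext] structure GComplex.Realization (X : GComplex G) : Type where
  /-- barycentric coordinates -/
  val : X.V → ℝ
  nonneg : ∀ v, 0 ≤ val v
  sum_eq : ∑ v, val v = 1
  supp : ∃ s ∈ X.K.faces, ∀ v, val v ≠ 0 → v ∈ s

/-- The realization carries the subspace topology of `V → ℝ`. -/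
instance (X : GComplex G) : TopologicalSpace X.Realization :=
  TopologicalSpace.induced GComplex.Realization.val inferInstance

theorem continuous_val (X : GComplex G) :
    Continuous (GComplex.Realization.val : X.Realization → X.V → ℝ) :=
  continuous_induced_dom

theorem continuous_iff_val {A : Type*} [TopologicalSpace A] (X : GComplex G)
    (f : A → X.Realization) : Continuous f ↔ ∀ v, Continuous fun a => (f a).val v := by
  rw [continuous_induced_rng]
  exact continuous_pi_iff

/-- The induced action of `G` on the realization: `(g • x)(v) = x(g⁻¹ v)`. -/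
instance (X : GComplex G) : MulAction G X.Realization where
  smul g x :=
    { val := fun v => x.val (g⁻¹ • v)
      nonneg := fun v => x.nonneg _
      sum_eq := (Fintype.sum_equiv (MulAction.toPerm g⁻¹) _ _ (fun _ => rfl)).trans x.sum_eq
      supp := by
        obtain ⟨s, hs, h⟩ := x.supp
        refine ⟨_, X.smul_mem g s hs, fun v hv => ?_⟩
        refine Finset.mem_map.2 ⟨g⁻¹ • v, h _ hv, ?_⟩
        simp }
  one_smul x := by
    ext v
    show x.val ((1 : G)⁻¹ • v) = x.val v
    simp
  mul_smul g h x := by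
    ext v
    show x.val ((g * h)⁻¹ • v) = x.val (h⁻¹ • g⁻¹ • v)
    rw [mul_inv_rev, mul_smul]

theorem smul_val (X : GComplex G) (g : G) (x : X.Realization) (v : X.V) :
    (g • x).val v = x.val (g⁻¹ • v) := rfl

/-- The action of `G` on the realization is free. -/
def GComplex.IsFree (X : GComplex G) : Prop :=
  ∀ (g : G) (x : X.Realization), g • x = x → g = 1

/-- The clique complex of a reflexive, `G`-invariant relation on a finite `G`-set: its faces are
the nonempty sets of pairwise related vertices. -/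
def cliqueComplex (V : Type) [Fintype V] [MulAction G V] (R : V → V → Prop)
    (hr : ∀ v, R v v) (hG : ∀ (g : G) p q, R p q → R (g • p) (g • q)) : GComplex G where
  V := V
  K :=
    { faces := {s | s.Nonempty ∧ ∀ p ∈ s, ∀ q ∈ s, R p q}
      isRelLowerSet_faces := fun {s} hs => ⟨hs.1, fun t hts ht =>
        ⟨ht, fun p hp q hq => hs.2 p (hts hp) q (hts hq)⟩⟩
      singleton_mem := fun v => ⟨Finset.singleton_nonempty v, fun p hp q hq => by
        rw [Finset.mem_singleton] at hp hq
        rw [hp, hq]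
        exact hr v⟩ }
  smul_mem := by
    rintro g s ⟨hne, h⟩
    refine ⟨hne.map, fun p hp q hq => ?_⟩
    obtain ⟨p', hp', rfl⟩ := Finset.mem_map.1 hp
    obtain ⟨q', hq', rfl⟩ := Finset.mem_map.1 hq
    exact hG g p' q' (h p' hp' q' hq')

/-- Points of the realization of a clique complex. -/
def mkPoint {V : Type} [Fintype V] [MulAction G V] {R : V → V → Prop}
    {hr : ∀ v, R v v} {hG : ∀ (g : G) p q, R p q → R (g • p) (g • q)}
    (x : V → ℝ) (h0 : ∀ v, 0 ≤ x v) (h1 : ∑ v, x v = 1)
    (h2 : ∀ p q, x p ≠ 0 → x q ≠ 0 → R p q) : (cliqueComplex V R hr hG).Realization where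
  val := x
  nonneg := h0
  sum_eq := h1
  supp := by
    classical
    have key : ∃ s : Finset V, (s.Nonempty ∧ ∀ p ∈ s, ∀ q ∈ s, R p q) ∧
        ∀ v, x v ≠ 0 → v ∈ s := by
      refine ⟨Finset.univ.filter (fun v => x v ≠ 0), ⟨?_, ?_⟩, fun v hv => by
        simpa using hv⟩
      · by_contra h
        rw [Finset.not_nonempty_iff_eq_empty] at h
        have : ∑ v, x v = 0 := Finset.sum_eq_zero fun v _ => by
          by_contra hv
          have : v ∈ Finset.univ.filter (fun v => x v ≠ 0) := by simpa using hv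
          rw [h] at this
          simp at this
        linarith
      · intro p hp q hq
        exact h2 p q (by simpa using hp) (by simpa using hq)
    exact key

theorem rel_of_ne {V : Type} [Fintype V] [MulAction G V] {R : V → V → Prop}
    {hr : ∀ v, R v v} {hG : ∀ (g : G) p q, R p q → R (g • p) (g • q)}
    (x : (cliqueComplex V R hr hG).Realization) (p q : V) (hp : x.val p ≠ 0)
    (hq : x.val q ≠ 0) : R p q := by
  obtain ⟨s, hs, h⟩ := x.supp
  exact hs.2 p (h p hp) q (h q hq)

/-- The action of `G` by left multiplication on `k + 1` copies of `G`. -/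
@[reducible] def joinAction (G : Type) [Group G] (k : ℕ) : MulAction G (Fin (k + 1) × G) where
  smul := fun g p => (p.1, g * p.2)
  one_smul := fun _ => Prod.ext rfl (one_mul _)
  mul_smul := fun _ _ _ => Prod.ext rfl (mul_assoc _ _ _)

/-- `E_k G`, the `(k+1)`-fold join `G * ⋯ * G` of the discrete group `G`, as a simplicial complex:
the vertices are the pairs `(i, a)` with `i ≤ k`, `a ∈ G`, and a set of vertices is a face if and
only if it has at most one vertex in each of the `k + 1` copies of `G`; `G` acts by left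
multiplication on all copies. -/
def E (G : Type) [Group G] [Fintype G] (k : ℕ) : GComplex G :=
  letI := joinAction G k
  cliqueComplex (Fin (k + 1) × G) (fun p q => p.1 = q.1 → p = q) (fun _ _ => rfl)
    (fun _ _ _ h e => congrArg _ (h e))

/-- The mapping index of a `G`-space: the least `k` such that there is a continuous equivariant
map to `E_k G` (and `⊤` if there is none). -/
noncomputable def ind (G : Type) [Group G] [Fintype G] (X : Type) [TopologicalSpace X]
    [MulAction G X] : ℕ∞ :=
  sInf {n : ℕ∞ | ∃ k : ℕ, n = k ∧ ∃ f : X → (E G k).Realization,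
    Continuous f ∧ ∀ (g : G) (x : X), f (g • x) = g • f x}

/-- Nice groups: (nontrivial) cyclic `p`-groups and generalized quaternion groups of order a power
of two, i.e. `Q_{4n}` with `n = 2 ^ m ≥ 2`. -/
def IsNice (G : Type) [Group G] : Prop :=
  (∃ p k : ℕ, p.Prime ∧ 1 ≤ k ∧ IsCyclic G ∧ Nat.card G = p ^ k) ∨
    ∃ m : ℕ, 1 ≤ m ∧ Nonempty (G ≃* QuaternionGroup (2 ^ m))

/-! ### Continuous logarithms -/

theorem exists_log {A : Type} [TopologicalSpace A] [SimplyConnectedSpace A]
    [LocallyPathConnectedSpace A] (F : A → ℂ) (hF : Continuous F) (h0 : ∀ a, F a ≠ 0) :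
    ∃ Φ : A → ℂ, Continuous Φ ∧ ∀ a, exp (Φ a) = F a := by
  obtain ⟨a₀⟩ : Nonempty A := inferInstance
  obtain ⟨Φ, ⟨-, hΦ⟩, -⟩ := Complex.isCoveringMapOn_exp.existsUnique_continuousMap_lifts
    (⟨F, hF⟩ : C(A, ℂ)) (a₀ := a₀) (e₀ := Complex.log (F a₀)) (Complex.exp_log (h0 a₀))
    (fun a => h0 a)
  exact ⟨Φ, Φ.continuous, fun a => congrFun hΦ a⟩

theorem const_diff {A : Type} [TopologicalSpace A] [SimplyConnectedSpace A]
    [LocallyPathConnectedSpace A] (Φ Ψ : A → ℂ) (hΦ : Continuous Φ) (hΨ : Continuous Ψ) (c : ℂ)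
    (h : ∀ a, exp (Φ a) = exp c * exp (Ψ a)) :
    ∃ m : ℤ, ∀ a, Φ a = Ψ a + c + m * (2 * Real.pi * I) := by
  obtain ⟨a₀⟩ : Nonempty A := inferInstance
  have h1 : exp (Φ a₀) = exp (Ψ a₀ + c) := by
    rw [h a₀, Complex.exp_add, mul_comm]
  obtain ⟨m, hm⟩ := Complex.exp_eq_exp_iff_exists_int.1 h1
  refine ⟨m, ?_⟩
  obtain ⟨Θ, -, huniq⟩ := Complex.isCoveringMapOn_exp.existsUnique_continuousMap_lifts
    (⟨fun a => exp (Φ a), Complex.continuous_exp.comp hΦ⟩ : C(A, ℂ)) (a₀ := a₀) (e₀ := Φ a₀) rfl
    (fun a => Complex.exp_ne_zero _)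
  have e1 := huniq ⟨Φ, hΦ⟩ ⟨rfl, rfl⟩
  have e2 := huniq ⟨fun a => Ψ a + c + m * (2 * Real.pi * I), by fun_prop⟩ ⟨by simpa using hm.symm, by
    funext a
    show exp (Ψ a + c + m * (2 * Real.pi * I)) = exp (Φ a)
    rw [h a, Complex.exp_add, Complex.exp_int_mul_two_pi_mul_I, mul_one, Complex.exp_add,
      mul_comm]⟩
  intro a
  have := congrArg (fun f : C(A, ℂ) => f a) (e1.trans e2.symm)
  exact this

/-! ### The group `Z/4` and its circle representation -/

/-- The cyclic group of order four. -/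
abbrev C4 : Type := Multiplicative (ZMod 4)

/-- The generator. -/
def g0 : C4 := Multiplicative.ofAdd 1

/-- The faithful character of `Z/4`. -/
noncomputable def chi (a : C4) : ℂ := I ^ (Multiplicative.toAdd a).val

theorem chi_mul (a : C4) : chi (g0 * a) = I * chi a := by
  have h : ∀ b : ZMod 4, (I : ℂ) ^ (1 + b).val = I * I ^ b.val := by
    intro b
    have hb : (1 + b).val = (b.val + 1) % 4 := by
      revert b
      decide
    rw [hb, ← pow_succ']
    conv_rhs => rw [← Nat.div_add_mod (b.val + 1) 4, pow_add, pow_mul, I_pow_four, one_pow,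
      one_mul]
  exact h (Multiplicative.toAdd a)

theorem chi_pow_four (a : C4) : chi a ^ 4 = 1 := by
  unfold chi
  rw [← pow_mul, mul_comm, pow_mul, I_pow_four, one_pow]

/-- The eighth root of unity. -/
noncomputable def om : ℂ := exp (Real.pi * I / 4)

theorem om_pow_four : om ^ 4 = -1 := by
  unfold om
  rw [← Complex.exp_nat_mul]
  have : ((4 : ℕ) : ℂ) * (Real.pi * I / 4) = Real.pi * I := by
    push_cast
    ring
  rw [this, Complex.exp_pi_mul_I]

/-- The coordinates of a point of `E_k C4`. -/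
def co {k : ℕ} (x : (E C4 k).Realization) : Fin (k + 1) × C4 → ℝ := x.val

theorem co_nonneg {k : ℕ} (x : (E C4 k).Realization) (p) : 0 ≤ co x p := x.nonneg p

theorem sum_co {k : ℕ} (x : (E C4 k).Realization) : ∑ p, co x p = 1 := x.sum_eq

theorem co_smul {k : ℕ} (g : C4) (x : (E C4 k).Realization) (i : Fin (k + 1)) (a : C4) :
    co (g • x) (i, a) = co x (i, g⁻¹ * a) := rfl

theorem co_rel {k : ℕ} (x : (E C4 k).Realization) (p q : Fin (k + 1) × C4) (hp : co x p ≠ 0)
    (hq : co x q ≠ 0) (h : p.1 = q.1) : p = q := by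
  let _ := joinAction C4 k
  exact rel_of_ne (G := C4) (V := Fin (k + 1) × C4) (R := fun p q => p.1 = q.1 → p = q) x p q hp hq h

/-- The row sum. -/
noncomputable def row {k : ℕ} (x : (E C4 k).Realization) (i : Fin (k + 1)) : ℂ :=
  ∑ a : C4, (co x (i, a) : ℂ) * chi a

theorem row_pow_four {k : ℕ} (x : (E C4 k).Realization) (i : Fin (k + 1)) :
    row x i ^ 4 = (((∑ a : C4, co x (i, a)) ^ 4 : ℝ) : ℂ) := by
  obtain ⟨a, ha⟩ : ∃ a : C4, ∀ b : C4, b ≠ a → co x (i, b) = 0 := by
    by_cases h : ∃ a : C4, co x (i, a) ≠ 0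
    · obtain ⟨a, ha⟩ := h
      refine ⟨a, fun b hb => ?_⟩
      by_contra hc
      have := co_rel x (i, b) (i, a) hc ha rfl
      exact hb (congrArg Prod.snd this)
    · push Not at h
      exact ⟨1, fun b _ => h b⟩
  have e1 : ∑ b : C4, co x (i, b) = co x (i, a) :=
    Finset.sum_eq_single a (fun b _ hb => ha b hb) (fun h => absurd (Finset.mem_univ a) h)
  have e2 : row x i = (co x (i, a) : ℂ) * chi a :=
    Finset.sum_eq_single a (fun b _ hb => by rw [ha b hb]; simp)
      (fun h => absurd (Finset.mem_univ a) h)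
  rw [e1, e2, mul_pow, chi_pow_four]
  push_cast
  ring

theorem row_smul {k : ℕ} (x : (E C4 k).Realization) (i : Fin (k + 1)) :
    row (g0 • x) i = I * row x i := by
  unfold row
  rw [Finset.mul_sum]
  refine (Fintype.sum_equiv (Equiv.mulLeft g0) _ _ fun b => ?_).symm
  show I * ((co x (i, b) : ℂ) * chi b) = (co (g0 • x) (i, g0 * b) : ℂ) * chi (g0 * b)
  rw [co_smul, inv_mul_cancel_left, chi_mul]
  ring

theorem co_continuous {k : ℕ} (p : Fin (k + 1) × C4) :
    Continuous fun x : (E C4 k).Realization => co x p :=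
  (continuous_apply p).comp (continuous_val (E C4 k))

theorem row_continuous {k : ℕ} (i : Fin (k + 1)) :
    Continuous fun x : (E C4 k).Realization => row x i := by
  unfold row
  refine continuous_finsetSum _ fun a _ => ?_
  exact (Complex.continuous_ofReal.comp (co_continuous (i, a))).mul continuous_const

theorem exists_circle_map (k : ℕ) (hk : k < 2) :
    ∃ z : (E C4 k).Realization → ℂ, Continuous z ∧ (∀ x, z x ≠ 0) ∧
      ∀ x, z (g0 • x) = I * z x := by
  interval_cases k
  · refine ⟨fun x => row x 0, row_continuous 0, fun x hx => ?_, fun x => row_smul x 0⟩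
    have hx1 : row x 0 = 0 := hx
    have h := row_pow_four x 0
    have hs := sum_co x
    rw [Fintype.sum_prod_type] at hs
    have hs' : (∑ a : C4, co x ((0 : Fin 1), a)) = 1 := by
      rw [← hs]
      exact (Fintype.sum_unique (fun i : Fin 1 => ∑ a : C4, co x (i, a))).symm
    rw [hx1, hs'] at h
    norm_num at h
  · refine ⟨fun x => row x 0 + om * row x 1, (row_continuous 0).add
      (continuous_const.mul (row_continuous 1)), fun x hx => ?_, fun x => by
        show row (g0 • x) 0 + om * row (g0 • x) 1 = I * (row x 0 + om * row x 1)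
        rw [row_smul, row_smul]; ring⟩
    have h0 := row_pow_four x 0
    have h1 := row_pow_four x 1
    have hx' : row x 0 = - (om * row x 1) := by linear_combination hx
    rw [hx', neg_pow, mul_pow, om_pow_four, h1] at h0
    have hs' := sum_co x
    rw [Fintype.sum_prod_type, Fin.sum_univ_two] at hs'
    set s := ∑ a : C4, co x ((0 : Fin 2), a)
    set t := ∑ a : C4, co x ((1 : Fin 2), a)
    have h2 : - t ^ 4 = s ^ 4 := by
      have : ((- t ^ 4 : ℝ) : ℂ) = ((s ^ 4 : ℝ) : ℂ) := by
        rw [← h0]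
        push_cast
        ring
      exact_mod_cast this
    have hs0 : s = 0 := by
      have : s ^ 4 = 0 := le_antisymm (by nlinarith [sq_nonneg (t ^ 2)]) (by positivity)
      exact pow_eq_zero_iff (by norm_num) |>.1 this
    have ht0 : t = 0 := by
      have : t ^ 4 = 0 := by rw [hs0] at h2; linarith
      exact pow_eq_zero_iff (by norm_num) |>.1 this
    rw [hs0, ht0] at hs'
    norm_num at hs'

/-- The index is at least two as soon as there is no equivariant map to `ℂ \ {0}` on which the
generator acts by multiplication by the imaginary unit. -/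
theorem two_le_ind (X : Type) [TopologicalSpace X] [MulAction C4 X]
    (h : ∀ F : X → ℂ, Continuous F → (∀ x, F x ≠ 0) → (∀ x, F (g0 • x) = I * F x) → False) :
    2 ≤ ind C4 X := by
  refine le_sInf ?_
  rintro n ⟨k, rfl, f, hf, hfe⟩
  by_contra hlt
  have hk : k < 2 := by
    by_contra hk
    push Not at hk
    exact hlt (by exact_mod_cast hk)
  obtain ⟨z, hz, hz0, hze⟩ := exists_circle_map k hk
  exact h (z ∘ f) (hz.comp hf) (fun x => hz0 _) (fun x => by
    simp only [Function.comp_apply]
    rw [hfe, hze])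

/-! ### The first complex: a torus on which the generator acts by `(u, v) ↦ (v, u + 2)` -/

/-- The action of `Z/4` on `Z/4 × Z/4`: the generator sends `(u, v)` to `(v, u + 2)`. -/
def rot (a : ZMod 4) (p : ZMod 4 × ZMod 4) : ZMod 4 × ZMod 4 :=
  if a = 0 then p else if a = 1 then (p.2, p.1 + 2)
  else if a = 2 then (p.1 + 2, p.2 + 2) else (p.2 + 2, p.1)

/-- `rot` as a group action. -/
@[reducible] def torusAction : MulAction C4 (ZMod 4 × ZMod 4) where
  smul g p := rot (Multiplicative.toAdd g) p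
  one_smul p := by
    show rot 0 p = p
    rfl
  mul_smul g h p := by
    have : ∀ a b : ZMod 4, ∀ p : ZMod 4 × ZMod 4, rot (a + b) p = rot a (rot b p) := by decide
    exact this _ _ p

/-- The first complex: the clique complex on `Z/4 × Z/4` in which two pairs are related when
neither their first coordinates nor their second coordinates are opposite (this is a
triangulated thickening of the product of two 4-cycles). -/
def K1 : GComplex C4 :=
  letI := torusAction
  cliqueComplex (ZMod 4 × ZMod 4) (fun p q => q.1 ≠ p.1 + 2 ∧ q.2 ≠ p.2 + 2) (by decide)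
    (fun g p q => by
      have : ∀ a : ZMod 4, ∀ p q : ZMod 4 × ZMod 4, (q.1 ≠ p.1 + 2 ∧ q.2 ≠ p.2 + 2) →
        ((rot a q).1 ≠ (rot a p).1 + 2 ∧ (rot a q).2 ≠ (rot a p).2 + 2) := by decide
      exact this _ p q)

/-- Coordinates on `K1`. -/
def co1 (x : K1.Realization) : ZMod 4 × ZMod 4 → ℝ := x.val

theorem co1_nonneg (x : K1.Realization) (p) : 0 ≤ co1 x p := x.nonneg p

theorem sum_co1 (x : K1.Realization) : ∑ p, co1 x p = 1 := x.sum_eq

theorem co1_smul (g : C4) (x : K1.Realization) (p : ZMod 4 × ZMod 4) :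
    co1 (g • x) p = co1 x (rot (Multiplicative.toAdd g⁻¹) p) := rfl

theorem co1_rel (x : K1.Realization) (p q : ZMod 4 × ZMod 4) (hp : co1 x p ≠ 0)
    (hq : co1 x q ≠ 0) : q.1 ≠ p.1 + 2 ∧ q.2 ≠ p.2 + 2 := by
  let _ := torusAction
  exact rel_of_ne (G := C4) (V := ZMod 4 × ZMod 4)
    (R := fun p q => q.1 ≠ p.1 + 2 ∧ q.2 ≠ p.2 + 2) x p q hp hq

theorem co1_continuous (p : ZMod 4 × ZMod 4) :
    Continuous fun x : K1.Realization => co1 x p :=
  (continuous_apply p).comp (continuous_val K1)

theorem exists_pow_g0 (g : C4) : ∃ n : ℕ, g = g0 ^ n := by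
  refine ⟨(Multiplicative.toAdd g).val, ?_⟩
  have : ∀ a : ZMod 4, a = a.val • (1 : ZMod 4) := by decide
  exact this (Multiplicative.toAdd g)

theorem K1_free : K1.IsFree := by
  intro g x h
  by_contra hg
  have h2 : (Multiplicative.ofAdd (2 : ZMod 4) : C4) • x = x := by
    have key : ∀ a : ZMod 4, a ≠ 0 → a = 2 ∨ a + a = 2 := by decide
    rcases key (Multiplicative.toAdd g) (fun h0 => hg h0) with e | e
    · have : g = Multiplicative.ofAdd (2 : ZMod 4) := e
      rw [← this]
      exact h
    · have : g * g = Multiplicative.ofAdd (2 : ZMod 4) := e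
      rw [← this, mul_smul, h, h]
  obtain ⟨p, hp⟩ : ∃ p, co1 x p ≠ 0 := by
    by_contra hc
    push Not at hc
    have := sum_co1 x
    rw [Finset.sum_eq_zero (fun p _ => hc p)] at this
    norm_num at this
  have hq : co1 x (rot 2 p) ≠ 0 := by
    have e : co1 x p = co1 ((Multiplicative.ofAdd (2 : ZMod 4) : C4) • x) p := by rw [h2]
    rw [co1_smul] at e
    have : Multiplicative.toAdd ((Multiplicative.ofAdd (2 : ZMod 4) : C4)⁻¹) = 2 := by decide
    rw [this] at e
    rw [← e]
    exact hp
  exact (co1_rel x p (rot 2 p) hp hq).1 rfl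

/-! ### The circle as a 4-cycle -/

/-- Barycentric coordinates of the point at angle `t` on the 4-cycle. -/
noncomputable def cc (t : ℝ) (u : ZMod 4) : ℝ :=
  if u = 0 then (max 0 (Real.cos t)) ^ 2 else if u = 1 then (max 0 (Real.sin t)) ^ 2
  else if u = 2 then (max 0 (- Real.cos t)) ^ 2 else (max 0 (- Real.sin t)) ^ 2

theorem cc_zero (t : ℝ) : cc t 0 = (max 0 (Real.cos t)) ^ 2 := by simp [cc]

theorem cc_one (t : ℝ) : cc t 1 = (max 0 (Real.sin t)) ^ 2 := by
  have h : (1 : ZMod 4) ≠ 0 := by decide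
  simp [cc, h]

theorem cc_two (t : ℝ) : cc t 2 = (max 0 (- Real.cos t)) ^ 2 := by
  have h : (2 : ZMod 4) ≠ 0 := by decide
  have h' : (2 : ZMod 4) ≠ 1 := by decide
  simp [cc, h, h']

theorem cc_three (t : ℝ) : cc t 3 = (max 0 (- Real.sin t)) ^ 2 := by
  have h : (3 : ZMod 4) ≠ 0 := by decide
  have h' : (3 : ZMod 4) ≠ 1 := by decide
  have h'' : (3 : ZMod 4) ≠ 2 := by decide
  simp [cc, h, h', h'']

theorem zmod4_cases (u : ZMod 4) : u = 0 ∨ u = 1 ∨ u = 2 ∨ u = 3 := by
  revert u
  decide

theorem cc_nonneg (t : ℝ) (u : ZMod 4) : 0 ≤ cc t u := by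
  unfold cc
  split_ifs <;> positivity

theorem sum_zmod4 {M : Type*} [AddCommMonoid M] (f : ZMod 4 → M) :
    ∑ u, f u = f 0 + f 1 + f 2 + f 3 := Fin.sum_univ_four f

theorem max_sq (a : ℝ) : (max 0 a) ^ 2 + (max 0 (-a)) ^ 2 = a ^ 2 := by
  rcases le_total 0 a with h | h
  · rw [max_eq_right h, max_eq_left (by linarith)]
    ring
  · rw [max_eq_left h, max_eq_right (by linarith)]
    ring

theorem sum_cc (t : ℝ) : ∑ u, cc t u = 1 := by
  rw [sum_zmod4, cc_zero, cc_one, cc_two, cc_three]
  have h1 := max_sq (Real.cos t)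
  have h2 := max_sq (Real.sin t)
  have h3 := Real.sin_sq_add_cos_sq t
  linarith

theorem cc_opposite (t : ℝ) (u : ZMod 4) (h : cc t u ≠ 0) : cc t (u + 2) = 0 := by
  have key : ∀ a : ℝ, (max 0 a) ^ 2 ≠ 0 → (max 0 (-a)) ^ 2 = 0 := by
    intro a ha
    rcases le_total 0 a with h | h
    · rw [max_eq_left (by linarith)]; norm_num
    · rw [max_eq_left h] at ha; norm_num at ha
  rcases zmod4_cases u with rfl | rfl | rfl | rfl
  · rw [show (0 + 2 : ZMod 4) = 2 from rfl, cc_two]
    rw [cc_zero] at h
    exact key _ h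
  · rw [show (1 + 2 : ZMod 4) = 3 from rfl, cc_three]
    rw [cc_one] at h
    exact key _ h
  · rw [show (2 + 2 : ZMod 4) = 0 from rfl, cc_zero]
    rw [cc_two] at h
    have := key _ h
    rwa [neg_neg] at this
  · rw [show (3 + 2 : ZMod 4) = 1 from rfl, cc_one]
    rw [cc_three] at h
    have := key _ h
    rwa [neg_neg] at this

theorem cc_add_pi (t : ℝ) (u : ZMod 4) : cc (t + Real.pi) u = cc t (u + 2) := by
  rcases zmod4_cases u with rfl | rfl | rfl | rfl
  · rw [show (0 + 2 : ZMod 4) = 2 from rfl, cc_two, cc_zero, Real.cos_add_pi]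
  · rw [show (1 + 2 : ZMod 4) = 3 from rfl, cc_three, cc_one, Real.sin_add_pi]
  · rw [show (2 + 2 : ZMod 4) = 0 from rfl, cc_zero, cc_two, Real.cos_add_pi, neg_neg]
  · rw [show (3 + 2 : ZMod 4) = 1 from rfl, cc_one, cc_three, Real.sin_add_pi, neg_neg]

theorem cc_add_two_pi (t : ℝ) (u : ZMod 4) : cc (t + 2 * Real.pi) u = cc t u := by
  have : t + 2 * Real.pi = t + Real.pi + Real.pi := by ring
  rw [this, cc_add_pi, cc_add_pi]
  congr 1
  rw [add_assoc, show (2 + 2 : ZMod 4) = 0 from rfl, add_zero]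

theorem cc_continuous (u : ZMod 4) : Continuous fun t => cc t u := by
  rcases zmod4_cases u with rfl | rfl | rfl | rfl
  · simp only [cc_zero]; fun_prop
  · simp only [cc_one]; fun_prop
  · simp only [cc_two]; fun_prop
  · simp only [cc_three]; fun_prop

/-- The product map from the plane to `K1`. -/
noncomputable def P1 (z : ℝ × ℝ) : K1.Realization :=
  letI := torusAction
  mkPoint (G := C4) (V := ZMod 4 × ZMod 4) (fun p => cc z.1 p.1 * cc z.2 p.2)
    (fun p => mul_nonneg (cc_nonneg _ _) (cc_nonneg _ _))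
    (by
      rw [Fintype.sum_prod_type]
      simp only [← Finset.mul_sum, sum_cc, mul_one])
    (fun p q hp hq => by
      refine ⟨fun h => ?_, fun h => ?_⟩
      · apply hq
        rw [h, cc_opposite _ _ (left_ne_zero_of_mul hp), zero_mul]
      · apply hq
        rw [h, cc_opposite _ _ (right_ne_zero_of_mul hp), mul_zero])

theorem co1_P1 (z : ℝ × ℝ) (p : ZMod 4 × ZMod 4) : co1 (P1 z) p = cc z.1 p.1 * cc z.2 p.2 := rfl

theorem ext1 {x y : K1.Realization} (h : ∀ p, co1 x p = co1 y p) : x = y :=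
  GComplex.Realization.ext (funext h)

theorem P1_continuous : Continuous P1 := by
  refine (continuous_iff_val K1 P1).2 fun v => ?_
  have : Continuous fun z : ℝ × ℝ => cc z.1 (v : ZMod 4 × ZMod 4).1 * cc z.2 (v : ZMod 4 × ZMod 4).2 :=
    ((cc_continuous _).comp continuous_fst).mul ((cc_continuous _).comp continuous_snd)
  exact this

theorem toAdd_g0_inv : Multiplicative.toAdd (g0⁻¹ : C4) = 3 := by decide

theorem P1_swap (s t : ℝ) : P1 (t, s + Real.pi) = g0 • P1 (s, t) := by
  apply ext1
  rintro ⟨u, v⟩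
  rw [co1_smul, toAdd_g0_inv, co1_P1]
  have : rot 3 (u, v) = (v + 2, u) := rfl
  rw [this, co1_P1]
  show cc t u * cc (s + Real.pi) v = cc s (v + 2) * cc t u
  rw [cc_add_pi, mul_comm]

theorem two_pi_I_ne : (2 * Real.pi * I : ℂ) ≠ 0 := Complex.two_pi_I_ne_zero

theorem K1_index : 2 ≤ ind C4 K1.Realization := by
  apply two_le_ind
  intro F hF hF0 hFe
  obtain ⟨Φ, hΦ, hexp⟩ := exists_log (fun z : ℝ × ℝ => F (P1 z)) (hF.comp P1_continuous)
    (fun z => hF0 _)
  have hI : exp (Real.pi / 2 * I) = I := Complex.exp_pi_div_two_mul_I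
  obtain ⟨m, hm⟩ := const_diff (fun z : ℝ × ℝ => Φ (z.2, z.1 + Real.pi)) Φ (by fun_prop) hΦ
    (Real.pi / 2 * I) (fun z => by
      show exp (Φ (z.2, z.1 + Real.pi)) = _
      rw [hexp, hexp, hI]
      show F (P1 (z.2, z.1 + Real.pi)) = I * F (P1 z)
      rw [P1_swap, hFe])
  obtain ⟨m1, hm1⟩ := const_diff (fun z : ℝ × ℝ => Φ (z.1 + 2 * Real.pi, z.2)) Φ (by fun_prop) hΦ
    0 (fun z => by
      show exp (Φ (z.1 + 2 * Real.pi, z.2)) = _
      rw [hexp, hexp, Complex.exp_zero, one_mul]
      show F (P1 (z.1 + 2 * Real.pi, z.2)) = F (P1 z)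
      congr 1
      apply ext1
      intro p
      rw [co1_P1, co1_P1]
      show cc (z.1 + 2 * Real.pi) p.1 * cc z.2 p.2 = _
      rw [cc_add_two_pi])
  obtain ⟨m2, hm2⟩ := const_diff (fun z : ℝ × ℝ => Φ (z.1, z.2 + 2 * Real.pi)) Φ (by fun_prop) hΦ
    0 (fun z => by
      show exp (Φ (z.1, z.2 + 2 * Real.pi)) = _
      rw [hexp, hexp, Complex.exp_zero, one_mul]
      show F (P1 (z.1, z.2 + 2 * Real.pi)) = F (P1 z)
      congr 1
      apply ext1
      intro p
      rw [co1_P1, co1_P1]
      show cc z.1 p.1 * cc (z.2 + 2 * Real.pi) p.2 = _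
      rw [cc_add_two_pi])
  have A : ∀ s t : ℝ, Φ (t, s + Real.pi) = Φ (s, t) + Real.pi / 2 * I + m * (2 * Real.pi * I) :=
    fun s t => hm (s, t)
  have B1 : ∀ s t : ℝ, Φ (s + 2 * Real.pi, t) = Φ (s, t) + m1 * (2 * Real.pi * I) :=
    fun s t => by simpa using hm1 (s, t)
  have B2 : ∀ s t : ℝ, Φ (s, t + 2 * Real.pi) = Φ (s, t) + m2 * (2 * Real.pi * I) :=
    fun s t => by simpa using hm2 (s, t)
  -- the two translations have the same constant
  have e1 := A (0 + 2 * Real.pi) 0
  have e2 := B1 0 0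
  have e3 := B2 0 (0 + Real.pi)
  have e4 := A 0 0
  have e5 : (0 : ℝ) + 2 * Real.pi + Real.pi = 0 + Real.pi + 2 * Real.pi := by ring
  rw [e5, e3, e4, e2] at e1
  have e6 : (m1 : ℂ) = m2 := by
    have : ((m1 : ℂ) - m2) * (2 * Real.pi * I) = 0 := by linear_combination -e1
    rcases mul_eq_zero.1 this with h | h
    · exact sub_eq_zero.1 h
    · exact absurd h two_pi_I_ne
  -- the fourth power of the generator
  have f1 := A 0 0
  have f2 := A 0 (0 + Real.pi)
  have f3 := A (0 + Real.pi) (0 + Real.pi)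
  have f4 := A (0 + Real.pi) (0 + Real.pi + Real.pi)
  have f5 := B1 0 0
  have f6 := B2 (0 + 2 * Real.pi) 0
  have f7 : (0 : ℝ) + Real.pi + Real.pi = 0 + 2 * Real.pi := by ring
  rw [f7] at f3 f4
  rw [f3, f2, f1] at f4
  rw [f5] at f6
  rw [f6, e6] at f4
  have f8 : ((2 * m2 : ℂ) - (1 + 4 * m)) * (2 * Real.pi * I) = 0 := by linear_combination f4
  have f9 : (2 * m2 : ℂ) = 1 + 4 * m := by
    rcases mul_eq_zero.1 f8 with h | h
    · exact sub_eq_zero.1 h
    · exact absurd h two_pi_I_ne
  have f10 : (2 * m2 : ℤ) = 1 + 4 * m := by exact_mod_cast f9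
  omega

/-! ### The second complex: two 2-spheres (octahedra) interchanged by the generator -/

/-- The coset of the subgroup of order two containing `a`. -/
def par (a : C4) : ℕ := (Multiplicative.toAdd a).val % 2

theorem par_mul : ∀ g a b : C4, par a = par b → par (g * a) = par (g * b) := by
  have : ∀ g a b : ZMod 4, a.val % 2 = b.val % 2 → (g + a).val % 2 = (g + b).val % 2 := by decide
  exact fun g a b => this (Multiplicative.toAdd g) (Multiplicative.toAdd a) (Multiplicative.toAdd b)

/-- The second complex: the subcomplex of `E_2 (Z/4)` of all faces whose group coordinates lie in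
one coset of the subgroup of order two (two disjoint octahedra). -/
def K2 : GComplex C4 :=
  letI := joinAction C4 2
  cliqueComplex (Fin 3 × C4) (fun p q => (p.1 = q.1 → p = q) ∧ par p.2 = par q.2)
    (fun _ => ⟨fun _ => rfl, rfl⟩)
    (fun g p q h => ⟨fun e => congrArg _ (h.1 e), par_mul g p.2 q.2 h.2⟩)

/-- Coordinates on `K2`. -/
def co2 (y : K2.Realization) : Fin 3 × C4 → ℝ := y.val

theorem co2_nonneg (y : K2.Realization) (p) : 0 ≤ co2 y p := y.nonneg p

theorem sum_co2 (y : K2.Realization) : ∑ p, co2 y p = 1 := y.sum_eq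

theorem co2_smul (g : C4) (y : K2.Realization) (i : Fin 3) (a : C4) :
    co2 (g • y) (i, a) = co2 y (i, g⁻¹ * a) := rfl

theorem co2_rel (y : K2.Realization) (p q : Fin 3 × C4) (hp : co2 y p ≠ 0)
    (hq : co2 y q ≠ 0) : (p.1 = q.1 → p = q) ∧ par p.2 = par q.2 := by
  let _ := joinAction C4 2
  exact rel_of_ne (G := C4) (V := Fin 3 × C4)
    (R := fun p q => (p.1 = q.1 → p = q) ∧ par p.2 = par q.2) y p q hp hq

theorem co2_continuous (p : Fin 3 × C4) : Continuous fun y : K2.Realization => co2 y p :=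
  (continuous_apply p).comp (continuous_val K2)

theorem ext2 {x y : K2.Realization} (h : ∀ p, co2 x p = co2 y p) : x = y :=
  GComplex.Realization.ext (funext h)

theorem K2_free : K2.IsFree := by
  intro g y h
  obtain ⟨p, hp⟩ : ∃ p, co2 y p ≠ 0 := by
    by_contra hc
    push Not at hc
    have := sum_co2 y
    rw [Finset.sum_eq_zero (fun p _ => hc p)] at this
    norm_num at this
  have hq : co2 y (p.1, g⁻¹ * p.2) ≠ 0 := by
    have e : co2 y p = co2 (g • y) (p.1, p.2) := by rw [h]
    rw [co2_smul] at e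
    rw [← e]
    exact hp
  have h1 := (co2_rel y p (p.1, g⁻¹ * p.2) hp hq).1 rfl
  have h2 : p.2 = g⁻¹ * p.2 := congrArg Prod.snd h1
  have h3 : g⁻¹ = 1 := mul_eq_right.1 h2.symm
  exact inv_eq_one.1 h3

/-- The hemisphere coordinates. -/
noncomputable def dd (r t : ℝ) (p : Fin 3 × C4) : ℝ :=
  if p.1 = 2 then (if p.2 = 1 then (Real.cos r) ^ 2 else 0)
  else if par p.2 = 1 then 0 else (Real.sin r) ^ 2 * cc t ((p.1.val : ZMod 4) + Multiplicative.toAdd p.2)

theorem dd_nonneg (r t : ℝ) (p) : 0 ≤ dd r t p := by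
  unfold dd
  split_ifs
  · positivity
  · exact le_refl _
  · exact le_refl _
  · exact mul_nonneg (by positivity) (cc_nonneg _ _)

/-- The elements of `Z/4`. -/
def el (a : ZMod 4) : C4 := Multiplicative.ofAdd a

theorem sum_C4 {M : Type*} [AddCommMonoid M] (f : C4 → M) :
    ∑ a, f a = f (el 0) + f (el 1) + f (el 2) + f (el 3) := Fin.sum_univ_four (fun a => f (el a))

theorem sum_dd (r t : ℝ) : ∑ p, dd r t p = 1 := by
  rw [Fintype.sum_prod_type, Fin.sum_univ_three]
  simp only [sum_C4]
  have h00 : dd r t (0, el 0) = (Real.sin r) ^ 2 * cc t 0 := by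
    have : ((((0 : Fin 3), el 0) : Fin 3 × C4).1.val : ZMod 4) + Multiplicative.toAdd (el 0) = 0 := by
      decide
    unfold dd
    rw [if_neg (by decide), if_neg (by decide), this]
  have h01 : dd r t (0, el 1) = 0 := by
    unfold dd; rw [if_neg (by decide), if_pos (by decide)]
  have h02 : dd r t (0, el 2) = (Real.sin r) ^ 2 * cc t 2 := by
    have : ((((0 : Fin 3), el 2) : Fin 3 × C4).1.val : ZMod 4) + Multiplicative.toAdd (el 2) = 2 := by
      decide
    unfold dd
    rw [if_neg (by decide), if_neg (by decide), this]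
  have h03 : dd r t (0, el 3) = 0 := by
    unfold dd; rw [if_neg (by decide), if_pos (by decide)]
  have h10 : dd r t (1, el 0) = (Real.sin r) ^ 2 * cc t 1 := by
    have : ((((1 : Fin 3), el 0) : Fin 3 × C4).1.val : ZMod 4) + Multiplicative.toAdd (el 0) = 1 := by
      decide
    unfold dd
    rw [if_neg (by decide), if_neg (by decide), this]
  have h11 : dd r t (1, el 1) = 0 := by
    unfold dd; rw [if_neg (by decide), if_pos (by decide)]
  have h12 : dd r t (1, el 2) = (Real.sin r) ^ 2 * cc t 3 := by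
    have : ((((1 : Fin 3), el 2) : Fin 3 × C4).1.val : ZMod 4) + Multiplicative.toAdd (el 2) = 3 := by
      decide
    unfold dd
    rw [if_neg (by decide), if_neg (by decide), this]
  have h13 : dd r t (1, el 3) = 0 := by
    unfold dd; rw [if_neg (by decide), if_pos (by decide)]
  have h20 : dd r t (2, el 0) = (Real.cos r) ^ 2 := by
    unfold dd; rw [if_pos (by decide), if_pos (by decide)]
  have h21 : dd r t (2, el 1) = 0 := by
    unfold dd; rw [if_pos (by decide), if_neg (by decide)]
  have h22 : dd r t (2, el 2) = 0 := by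
    unfold dd; rw [if_pos (by decide), if_neg (by decide)]
  have h23 : dd r t (2, el 3) = 0 := by
    unfold dd; rw [if_pos (by decide), if_neg (by decide)]
  rw [h00, h01, h02, h03, h10, h11, h12, h13, h20, h21, h22, h23]
  have h1 := sum_cc t
  rw [sum_zmod4] at h1
  have h2 := Real.sin_sq_add_cos_sq r
  linear_combination (Real.sin r) ^ 2 * h1 + h2

theorem dd_rel (r t : ℝ) (p q : Fin 3 × C4) (hp : dd r t p ≠ 0) (hq : dd r t q ≠ 0) :
    (p.1 = q.1 → p = q) ∧ par p.2 = par q.2 := by
  have par_lt : ∀ a : C4, par a = 0 ∨ par a = 1 := by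
    intro a
    unfold par
    omega
  have hpar : ∀ p : Fin 3 × C4, dd r t p ≠ 0 → par p.2 = 0 := by
    intro p hp
    rcases par_lt p.2 with h | h
    · exact h
    · exfalso
      apply hp
      unfold dd
      by_cases h2 : p.1 = 2
      · rw [if_pos h2]
        by_cases h3 : p.2 = 1
        · rw [h3] at h
          exact absurd h (by decide)
        · rw [if_neg h3]
      · rw [if_neg h2, if_pos h]
  refine ⟨fun he => ?_, by rw [hpar p hp, hpar q hq]⟩
  by_cases h2 : p.1 = 2
  · have h2' : q.1 = 2 := he ▸ h2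
    have hp1 : p.2 = 1 := by
      by_contra hc
      apply hp
      unfold dd
      rw [if_pos h2, if_neg hc]
    have hq1 : q.2 = 1 := by
      by_contra hc
      apply hq
      unfold dd
      rw [if_pos h2', if_neg hc]
    exact Prod.ext he (hp1.trans hq1.symm)
  · have h2' : ¬ q.1 = 2 := he ▸ h2
    have hp0 := hpar p hp
    have hq0 := hpar q hq
    have hp' : cc t ((p.1.val : ZMod 4) + Multiplicative.toAdd p.2) ≠ 0 := by
      intro hc
      apply hp
      unfold dd
      rw [if_neg h2, if_neg (by rw [hp0]; norm_num), hc, mul_zero]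
    have hq' : cc t ((q.1.val : ZMod 4) + Multiplicative.toAdd q.2) ≠ 0 := by
      intro hc
      apply hq
      unfold dd
      rw [if_neg h2', if_neg (by rw [hq0]; norm_num), hc, mul_zero]
    have key : ∀ a b : ZMod 4, a.val % 2 = 0 → b.val % 2 = 0 → a = b ∨ b = a + 2 := by decide
    rcases key _ _ hp0 hq0 with h | h
    · exact Prod.ext he h
    · exfalso
      apply hq'
      rw [h, ← he, ← add_assoc]
      exact cc_opposite _ _ hp'

/-- The map from the plane onto a hemisphere of the first octahedron. -/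
noncomputable def P2 (z : ℝ × ℝ) : K2.Realization :=
  letI := joinAction C4 2
  mkPoint (G := C4) (V := Fin 3 × C4) (dd z.1 z.2) (dd_nonneg _ _) (sum_dd _ _) (dd_rel _ _)

theorem co2_P2 (z : ℝ × ℝ) (p : Fin 3 × C4) : co2 (P2 z) p = dd z.1 z.2 p := rfl

theorem P2_continuous : Continuous P2 := by
  refine (continuous_iff_val K2 P2).2 fun v => ?_
  have : ∀ p : Fin 3 × C4, Continuous fun z : ℝ × ℝ => dd z.1 z.2 p := by
    intro p
    unfold dd
    split_ifs
    · fun_prop
    · fun_prop
    · fun_prop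
    · exact (by fun_prop : Continuous fun z : ℝ × ℝ => (Real.sin z.1) ^ 2).mul
        ((cc_continuous _).comp continuous_snd)
  exact this v

theorem P2_antipode (t : ℝ) : P2 (Real.pi / 2, t + Real.pi) = g0 • g0 • P2 (Real.pi / 2, t) := by
  apply ext2
  rintro ⟨i, a⟩
  rw [co2_smul, co2_smul, co2_P2, co2_P2]
  show dd (Real.pi / 2) (t + Real.pi) (i, a) = dd (Real.pi / 2) t (i, g0⁻¹ * (g0⁻¹ * a))
  unfold dd
  have hpar : par (g0⁻¹ * (g0⁻¹ * a)) = par a := by
    revert a
    decide
  have hadd : Multiplicative.toAdd (g0⁻¹ * (g0⁻¹ * a)) = Multiplicative.toAdd a + 2 := by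
    revert a
    decide
  simp only [Real.cos_pi_div_two, Real.sin_pi_div_two, hpar, hadd, cc_add_pi]
  split_ifs <;> simp [add_assoc]

theorem K2_index : 2 ≤ ind C4 K2.Realization := by
  apply two_le_ind
  intro F hF hF0 hFe
  obtain ⟨Φ, hΦ, hexp⟩ := exists_log (fun z : ℝ × ℝ => F (P2 z)) (hF.comp P2_continuous)
    (fun z => hF0 _)
  obtain ⟨m, hm⟩ := const_diff (fun z : ℝ × ℝ => Φ (z.1, z.2 + 2 * Real.pi)) Φ (by fun_prop) hΦ
    0 (fun z => by
      show exp (Φ (z.1, z.2 + 2 * Real.pi)) = _
      rw [hexp, hexp, Complex.exp_zero, one_mul]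
      show F (P2 (z.1, z.2 + 2 * Real.pi)) = F (P2 z)
      congr 1
      apply ext2
      intro p
      rw [co2_P2, co2_P2]
      show dd z.1 (z.2 + 2 * Real.pi) p = dd z.1 z.2 p
      unfold dd
      simp only [cc_add_two_pi])
  -- at the pole the function is constant
  obtain ⟨m', hm'⟩ := const_diff (fun t : ℝ => Φ (0, t)) (fun _ => Φ (0, 0)) (by fun_prop)
    (by fun_prop) 0 (fun t => by
      show exp (Φ (0, t)) = _
      rw [hexp, hexp, Complex.exp_zero, one_mul]
      show F (P2 (0, t)) = F (P2 (0, 0))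
      congr 1
      apply ext2
      intro p
      rw [co2_P2, co2_P2]
      show dd 0 t p = dd 0 0 p
      unfold dd
      simp)
  -- on the equator the function is odd
  obtain ⟨n, hn⟩ := const_diff (fun t : ℝ => Φ (Real.pi / 2, t + Real.pi))
    (fun t => Φ (Real.pi / 2, t)) (by fun_prop) (by fun_prop) (Real.pi * I) (fun t => by
      show exp (Φ (Real.pi / 2, t + Real.pi)) = _
      rw [hexp, hexp, Complex.exp_pi_mul_I]
      show F (P2 (Real.pi / 2, t + Real.pi)) = -1 * F (P2 (Real.pi / 2, t))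
      rw [P2_antipode, hFe, hFe, ← mul_assoc, I_mul_I])
  have a1 := hm (0, 0)
  have a2 := hm' 0
  have a3 := hm' (0 + 2 * Real.pi)
  simp only [add_zero] at a1 a2 a3
  have a4 : (m : ℂ) * (2 * Real.pi * I) = 0 := by
    rw [a3] at a1
    linear_combination -a1 - a2
  have b1 := hm (Real.pi / 2, 0)
  have b2 := hn 0
  have b3 := hn (0 + Real.pi)
  have b4 : (0 : ℝ) + Real.pi + Real.pi = 0 + 2 * Real.pi := by ring
  simp only [add_zero] at b1
  simp only [b4] at b3
  rw [b2] at b3
  rw [b1, a4] at b3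
  have f8 : ((1 + 2 * n : ℂ)) * (2 * Real.pi * I) = 0 := by linear_combination -b3
  have f9 : (1 + 2 * n : ℂ) = 0 := by
    rcases mul_eq_zero.1 f8 with h | h
    · exact h
    · exact absurd h two_pi_I_ne
  have f10 : (1 + 2 * n : ℤ) = 0 := by exact_mod_cast f9
  omega

/-! ### The equivariant map `K1 × K2 → E_1 (Z/4)` -/

/-- The weight of `y` on the component of the coset of `a`. -/
noncomputable def wt (y : K2.Realization) (a : C4) : ℝ :=
  ∑ p : Fin 3 × C4, if par p.2 = par a then co2 y p else 0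

/-- Marginals of `x`: for `a` in the subgroup of order two the weight of the first coordinate
`a + i`, otherwise the weight of the second coordinate `a + i + 1`. -/
noncomputable def mg (x : K1.Realization) (i : Fin 2) (a : C4) : ℝ :=
  if par a = 0 then ∑ v, co1 x ((Multiplicative.toAdd a + (i.val : ZMod 4)), v)
  else ∑ u, co1 x (u, (Multiplicative.toAdd a + (i.val : ZMod 4) + 1))

theorem wt_nonneg (y : K2.Realization) (a : C4) : 0 ≤ wt y a := by
  refine Finset.sum_nonneg fun p _ => ?_
  split_ifs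
  · exact co2_nonneg y p
  · exact le_refl _

theorem mg_nonneg (x : K1.Realization) (i : Fin 2) (a : C4) : 0 ≤ mg x i a := by
  unfold mg
  split_ifs
  · exact Finset.sum_nonneg fun _ _ => co1_nonneg x _
  · exact Finset.sum_nonneg fun _ _ => co1_nonneg x _

theorem wt_sum (y : K2.Realization) : wt y (el 0) + wt y (el 1) = 1 := by
  rw [← sum_co2 y]
  unfold wt
  rw [← Finset.sum_add_distrib]
  refine Finset.sum_congr rfl fun p _ => ?_
  have h0 : par (el 0) = 0 := by decide
  have h1 : par (el 1) = 1 := by decide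
  rw [h0, h1]
  have : par p.2 = 0 ∨ par p.2 = 1 := by
    unfold par
    omega
  rcases this with h | h <;> simp [h]

theorem wt_congr (y : K2.Realization) (a b : C4) (h : par a = par b) : wt y a = wt y b := by
  unfold wt
  rw [h]

theorem fmap_sum (x : K1.Realization) (y : K2.Realization) :
    ∑ p : Fin 2 × C4, wt y p.2 * mg x p.1 p.2 = 1 := by
  rw [Fintype.sum_prod_type, Fin.sum_univ_two]
  simp only [sum_C4]
  rw [wt_congr y (el 2) (el 0) (by decide), wt_congr y (el 3) (el 1) (by decide)]
  have hx := sum_co1 x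
  rw [Fintype.sum_prod_type] at hx
  have hx2 := hx
  rw [Finset.sum_comm] at hx2
  rw [sum_zmod4] at hx hx2
  have p0 : par (el 0) = 0 := by decide
  have p1 : ¬ par (el 1) = 0 := by decide
  have p2 : par (el 2) = 0 := by decide
  have p3 : ¬ par (el 3) = 0 := by decide
  have m00 : mg x 0 (el 0) = ∑ v, co1 x (0, v) := by
    unfold mg; rw [if_pos p0]; rfl
  have m10 : mg x 1 (el 0) = ∑ v, co1 x (1, v) := by
    unfold mg; rw [if_pos p0]; rfl
  have m02 : mg x 0 (el 2) = ∑ v, co1 x (2, v) := by
    unfold mg; rw [if_pos p2]; rfl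
  have m12 : mg x 1 (el 2) = ∑ v, co1 x (3, v) := by
    unfold mg; rw [if_pos p2]; rfl
  have m01 : mg x 0 (el 1) = ∑ u, co1 x (u, 2) := by
    unfold mg; rw [if_neg p1]; rfl
  have m11 : mg x 1 (el 1) = ∑ u, co1 x (u, 3) := by
    unfold mg; rw [if_neg p1]; rfl
  have m03 : mg x 0 (el 3) = ∑ u, co1 x (u, 0) := by
    unfold mg; rw [if_neg p3]; rfl
  have m13 : mg x 1 (el 3) = ∑ u, co1 x (u, 1) := by
    unfold mg; rw [if_neg p3]; rfl
  rw [m00, m10, m02, m12, m01, m11, m03, m13]
  have hw := wt_sum y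
  linear_combination wt y (el 0) * hx + wt y (el 1) * hx2 + hw

theorem fmap_rel (x : K1.Realization) (y : K2.Realization) (p q : Fin 2 × C4)
    (hp : wt y p.2 * mg x p.1 p.2 ≠ 0) (hq : wt y q.2 * mg x q.1 q.2 ≠ 0) :
    p.1 = q.1 → p = q := by
  intro he
  have hpar : par p.2 = par q.2 := by
    obtain ⟨p', -, hp'⟩ := Finset.exists_ne_zero_of_sum_ne_zero (left_ne_zero_of_mul hp)
    obtain ⟨q', -, hq'⟩ := Finset.exists_ne_zero_of_sum_ne_zero (left_ne_zero_of_mul hq)
    split_ifs at hp' with h1
    · split_ifs at hq' with h2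
      · rw [← h1, ← h2]
        exact (co2_rel y p' q' hp' hq').2
      · exact absurd rfl hq'
    · exact absurd rfl hp'
  have hp2 := right_ne_zero_of_mul hp
  have hq2 := right_ne_zero_of_mul hq
  have key : ∀ a b : ZMod 4, a.val % 2 = b.val % 2 → a = b ∨ b = a + 2 := by decide
  rcases key _ _ hpar with h | h
  · exact Prod.ext he h
  · exfalso
    unfold mg at hp2 hq2
    by_cases h0 : par p.2 = 0
    · rw [if_pos h0] at hp2
      rw [if_pos (hpar ▸ h0)] at hq2
      obtain ⟨v, -, hv⟩ := Finset.exists_ne_zero_of_sum_ne_zero hp2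
      obtain ⟨w, -, hw⟩ := Finset.exists_ne_zero_of_sum_ne_zero hq2
      refine (co1_rel x _ _ hv hw).1 ?_
      show Multiplicative.toAdd q.2 + (q.1.val : ZMod 4) =
        Multiplicative.toAdd p.2 + (p.1.val : ZMod 4) + 2
      rw [h, ← he]
      ring
    · rw [if_neg h0] at hp2
      rw [if_neg (hpar ▸ h0)] at hq2
      obtain ⟨v, -, hv⟩ := Finset.exists_ne_zero_of_sum_ne_zero hp2
      obtain ⟨w, -, hw⟩ := Finset.exists_ne_zero_of_sum_ne_zero hq2
      refine (co1_rel x _ _ hv hw).2 ?_
      show Multiplicative.toAdd q.2 + (q.1.val : ZMod 4) + 1 =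
        Multiplicative.toAdd p.2 + (p.1.val : ZMod 4) + 1 + 2
      rw [h, ← he]
      ring

/-- The map `K1 × K2 → E_1 (Z/4)`. -/
noncomputable def fmap (z : K1.Realization × K2.Realization) : (E C4 1).Realization :=
  letI := joinAction C4 1
  mkPoint (G := C4) (V := Fin 2 × C4) (fun p => wt z.2 p.2 * mg z.1 p.1 p.2)
    (fun _ => mul_nonneg (wt_nonneg _ _) (mg_nonneg _ _ _)) (fmap_sum _ _) (fmap_rel _ _)

theorem co_fmap (z : K1.Realization × K2.Realization) (p : Fin 2 × C4) :
    co (fmap z) p = wt z.2 p.2 * mg z.1 p.1 p.2 := rfl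

theorem ext0 {k : ℕ} {x y : (E C4 k).Realization} (h : ∀ p, co x p = co y p) : x = y :=
  GComplex.Realization.ext (funext h)

theorem fmap_continuous : Continuous fmap := by
  refine (continuous_iff_val (E C4 1) fmap).2 fun v => ?_
  have h : ∀ p : Fin 2 × C4, Continuous fun z : K1.Realization × K2.Realization =>
      wt z.2 p.2 * mg z.1 p.1 p.2 := by
    intro p
    refine Continuous.mul ?_ ?_
    · unfold wt
      refine continuous_finsetSum _ fun q _ => ?_
      split_ifs
      · exact (co2_continuous q).comp continuous_snd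
      · exact continuous_const
    · unfold mg
      split_ifs
      · exact continuous_finsetSum _ fun q _ => (co1_continuous _).comp continuous_fst
      · exact continuous_finsetSum _ fun q _ => (co1_continuous _).comp continuous_fst
  exact h v

theorem par_shift : ∀ a b : C4, (par b = par (g0⁻¹ * a)) ↔ (par (g0 * b) = par a) := by
  decide

theorem wt_smul (y : K2.Realization) (a : C4) : wt (g0 • y) a = wt y (g0⁻¹ * a) := by
  unfold wt
  refine (Fintype.sum_equiv ((Equiv.refl (Fin 3)).prodCongr (Equiv.mulLeft g0)) _ _ ?_).symm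
  rintro ⟨j, b⟩
  have h1 : co2 (g0 • y) (((Equiv.refl (Fin 3)).prodCongr (Equiv.mulLeft g0)) (j, b)) =
      co2 y (j, b) := by
    show co2 (g0 • y) (j, g0 * b) = _
    rw [co2_smul, inv_mul_cancel_left]
  rw [h1]
  have h2 := par_shift a b
  show (if par b = par (g0⁻¹ * a) then co2 y (j, b) else 0) =
    if par (g0 * b) = par a then co2 y (j, b) else 0
  by_cases h : par b = par (g0⁻¹ * a)
  · rw [if_pos h, if_pos (h2.1 h)]
  · rw [if_neg h, if_neg (fun h' => h (h2.2 h'))]

theorem mg_smul (x : K1.Realization) (i : Fin 2) (a : C4) : mg (g0 • x) i a = mg x i (g0⁻¹ * a) := by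
  have hp : (par a = 0 ∧ ¬ par (g0⁻¹ * a) = 0) ∨ (¬ par a = 0 ∧ par (g0⁻¹ * a) = 0) := by
    revert a
    decide
  have hadd : Multiplicative.toAdd (g0⁻¹ * a) = Multiplicative.toAdd a + 3 := by
    revert a
    decide
  have hrot : ∀ p : ZMod 4 × ZMod 4, rot 3 p = (p.2 + 2, p.1) := by decide
  unfold mg
  rcases hp with ⟨h1, h2⟩ | ⟨h1, h2⟩
  · rw [if_pos h1, if_neg h2]
    refine Fintype.sum_equiv (Equiv.addRight (2 : ZMod 4)) _ _ fun v => ?_
    rw [co1_smul, toAdd_g0_inv, hrot, hadd]
    show co1 x (v + 2, _) = co1 x (v + 2, _)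
    congr 2
    have : ∀ b c : ZMod 4, b + c = b + 3 + c + 1 := by decide
    exact this _ _
  · rw [if_neg h1, if_pos h2]
    refine Finset.sum_congr rfl fun v _ => ?_
    rw [co1_smul, toAdd_g0_inv, hrot, hadd]
    show co1 x (_, v) = co1 x (_, v)
    congr 2
    have : ∀ b c : ZMod 4, b + c + 1 + 2 = b + 3 + c := by decide
    exact this _ _

theorem fmap_g0 (z : K1.Realization × K2.Realization) : fmap (g0 • z) = g0 • fmap z := by
  apply ext0
  rintro ⟨i, a⟩
  rw [co_smul, co_fmap, co_fmap]
  show wt (g0 • z.2) a * mg (g0 • z.1) i a = wt z.2 (g0⁻¹ * a) * mg z.1 i (g0⁻¹ * a)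
  rw [wt_smul, mg_smul]

theorem fmap_smul (g : C4) (z : K1.Realization × K2.Realization) :
    fmap (g • z) = g • fmap z := by
  obtain ⟨n, rfl⟩ := exists_pow_g0 g
  induction n with
  | zero => rw [pow_zero, one_smul, one_smul]
  | succ n ih => rw [pow_succ', mul_smul, fmap_g0, ih, mul_smul]

theorem prod_index : ind C4 (K1.Realization × K2.Realization) ≤ 1 :=
  sInf_le ⟨1, rfl, fmap, fmap_continuous, fmap_smul⟩

theorem C4_nice : IsNice C4 := by
  refine Or.inl ⟨2, 2, Nat.prime_two, by norm_num, inferInstance, ?_⟩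
  rw [Nat.card_eq_fintype_card]
  rfl

/-- **The topological Hedetniemi conjecture for nice groups is false.**  For the nice group
`G = Z/4` there are finite free `G`-simplicial complexes `K₁`, `K₂` of index at least two whose
product has index at most one; in particular the index of the product is smaller than the minimum
of the indices. -/
theorem result :
    ∃ (G : Type) (_ : Group G) (_ : Fintype G) (K₁ K₂ : GComplex G),
      IsNice G ∧ Fintype.card G = 4 ∧ K₁.IsFree ∧ K₂.IsFree ∧
      2 ≤ ind G K₁.Realization ∧ 2 ≤ ind G K₂.Realization ∧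
      ind G (K₁.Realization × K₂.Realization) ≤ 1 ∧
      ind G (K₁.Realization × K₂.Realization) <
        min (ind G K₁.Realization) (ind G K₂.Realization) := by
  refine ⟨C4, inferInstance, inferInstance, K1, K2, C4_nice, rfl, K1_free, K2_free, K1_index,
    K2_index, prod_index, ?_⟩
  refine lt_of_le_of_lt prod_index (lt_of_lt_of_le ?_ (le_min K1_index K2_index))
  norm_num

end Pool.Agent.Results.MP_19f4d1_co.CyclicOrderFour
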